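import Mathlib
import Pool.Agent.MP_701998_an.H41.NoDecay

/-!
A compact perfect set containing all finite patterns and carrying no measure with decaying
Fourier transform.
-/

open Set Filter Topology MeasureTheory Complex
open scoped Real

namespace Pool.Agent.Results.MP_701998_an.NoRajchman

open Pool.Agent.MP_701998_an.H41

theorem result :
    ∃ E : Set ℝ, IsCompact E ∧ E ⊆ Set.Icc 0 1 ∧ Perfect E ∧
      (∀ F : Finset ℝ, ∃ a b : ℝ, b ≠ 0 ∧ ∀ x ∈ F, a + b * x ∈ E) ∧
      ∀ μ : Measure ℝ, IsFiniteMeasure μ → μ ≠ 0 → μ.support ⊆ E →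
        ¬ Tendsto (fun ξ : ℝ => ∫ x : ℝ, Complex.exp (-(2 * π * Complex.I * x * ξ)) ∂μ)
          (Filter.cocompact ℝ) (𝓝 0) := by
  obtain ⟨V, D, hV, hD, hKVD⟩ := exists_countable_union_perfect_of_isClosed isClosed_K
  have hDK : D ⊆ K := hKVD ▸ subset_union_right
  refine ⟨D, isCompact_K.of_isClosed_subset hD.closed hDK, fun x hx => (hDK hx).1, hD,
    fun F => ?_, fun μ hμ hne hs ht => hne ?_⟩
  · obtain ⟨a, b, hb, h⟩ := patterns V hV F
    refine ⟨a, b, hb, fun x hx => ?_⟩
    have h1 := (h x hx).1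
    rw [hKVD] at h1
    exact h1.resolve_left (h x hx).2
  · refine no_decay μ ?_ ht
    filter_upwards [μ.support_mem_ae] with x hx
    exact hDK (hs hx)

end Pool.Agent.Results.MP_701998_an.NoRajchman
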